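import Pool.Agent.Lib.MP_ded8ec_lc.FI.Spec

/-!
# Connectivity, separations and `Apex` by reachability
-/

set_option autoImplicit false

namespace Pool.Agent.Lib.MPded8ec.ALG

open Pool.Agent.Lib.MPded8ec.SG Pool.Agent.Lib.MPded8ec.FI Relation

universe u

variable {V : Type u}

/-- An edge of `G - N`. -/
def Sr (G : SimpleGraph V) (N : Set V) (x y : V) : Prop := x ∉ N ∧ y ∉ N ∧ G.Adj x y

theorem Sr.symm {G : SimpleGraph V} {N : Set V} {x y : V} (h : Sr G N x y) : Sr G N y x :=
  ⟨h.2.1, h.1, h.2.2.symm⟩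

/-- An edge of `G - N` or one of the arcs `(u, u')`, `(v', v)`. -/
def Sr2 (G : SimpleGraph V) (N : Set V) (u u' v v' : V) (x y : V) : Prop :=
  Sr G N x y ∨ (x = u ∧ y = u') ∨ (x = v' ∧ y = v)

theorem reach_of_walk {G : SimpleGraph V} {N : Set V} (p q : (Nᶜ : Set V))
    (w : (G.induce Nᶜ).Walk p q) : ReflTransGen (Sr G N) (p : V) (q : V) := by
  induction w with
  | nil => exact ReflTransGen.refl
  | @cons p q s h w ih =>
    have h' : G.Adj (p : V) (q : V) := h
    exact ReflTransGen.head ⟨p.2, q.2, h'⟩ ih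

theorem walk_of_reach {G : SimpleGraph V} {N : Set V} {x y : V} (hx : x ∉ N)
    (h : ReflTransGen (Sr G N) x y) (hy : y ∉ N) :
    (G.induce Nᶜ).Reachable ⟨x, hx⟩ ⟨y, hy⟩ := by
  induction h with
  | refl => exact SimpleGraph.Reachable.refl _
  | @tail b c hb h ih =>
    have h1 : (G.induce Nᶜ).Reachable ⟨x, hx⟩ ⟨b, h.1⟩ := ih h.1
    have h2 : (G.induce Nᶜ).Adj ⟨b, h.1⟩ ⟨c, hy⟩ := h.2.2
    exact h1.trans h2.reachable

/-- Connectedness of `G - N`. -/
theorem conn_iff (G : SimpleGraph V) (N : Set V) :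
    (G.induce Nᶜ).Connected ↔
      (∃ x, x ∉ N) ∧ ∀ s t, s ∉ N → t ∉ N → ReflTransGen (Sr G N) s t := by
  constructor
  · intro h
    obtain ⟨⟨x, hx⟩⟩ := h.nonempty
    refine ⟨⟨x, hx⟩, fun s t hs ht => ?_⟩
    obtain ⟨w⟩ := h.preconnected ⟨s, hs⟩ ⟨t, ht⟩
    exact reach_of_walk _ _ w
  · rintro ⟨⟨x, hx⟩, h⟩
    haveI : Nonempty (Nᶜ : Set V) := ⟨⟨x, hx⟩⟩
    refine SimpleGraph.Connected.mk ?_
    rintro ⟨s, hs⟩ ⟨t, ht⟩
    exact walk_of_reach hs (h s t hs ht) ht

/-- The second condition in the definition of internal 4-connectivity. -/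
theorem sep_iff [Fintype V] (G : SimpleGraph V) (N : Finset V) :
    (∀ A B : Finset V, Disjoint A N → Disjoint B N → Disjoint A B →
      (∀ x, x ∈ A ∨ x ∈ B ∨ x ∈ N) → (∀ x ∈ A, ∀ y ∈ B, ¬ G.Adj x y) → A.card ≤ 1 ∨ B.card ≤ 1) ↔
    ∀ u u' v v' : V, u ∉ N → u' ∉ N → v ∉ N → v' ∉ N → u ≠ u' → v ≠ v' →
      ReflTransGen (Sr2 G (N : Set V) u u' v v') u v := by
  classical
  constructor
  · intro h u u' v v' hu hu' hv hv' huu hvv
    by_contra hr
    let r := Sr2 G (N : Set V) u u' v v'
    let A : Finset V := Finset.univ.filter fun x => x ∉ N ∧ ReflTransGen r u x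
    let B : Finset V := Finset.univ.filter fun x => x ∉ N ∧ ¬ ReflTransGen r u x
    have hmA : ∀ x, x ∈ A ↔ x ∉ N ∧ ReflTransGen r u x := fun x => by simp [A]
    have hmB : ∀ x, x ∈ B ↔ x ∉ N ∧ ¬ ReflTransGen r u x := fun x => by simp [B]
    have huA : u ∈ A := (hmA u).2 ⟨hu, ReflTransGen.refl⟩
    have hu'A : u' ∈ A := (hmA u').2 ⟨hu', ReflTransGen.single (Or.inr (Or.inl ⟨rfl, rfl⟩))⟩
    have hvB : v ∈ B := (hmB v).2 ⟨hv, hr⟩
    have hv'B : v' ∈ B := (hmB v').2 ⟨hv', fun h1 => hr (h1.tail (Or.inr (Or.inr ⟨rfl, rfl⟩)))⟩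
    have h1 := h A B
      (by rw [Finset.disjoint_left]; intro x hx hN; exact ((hmA x).1 hx).1 hN)
      (by rw [Finset.disjoint_left]; intro x hx hN; exact ((hmB x).1 hx).1 hN)
      (by rw [Finset.disjoint_left]; intro x hx hN; exact ((hmB x).1 hN).2 ((hmA x).1 hx).2)
      (by
        intro x
        by_cases hN : x ∈ N
        · exact Or.inr (Or.inr hN)
        · by_cases hx : ReflTransGen r u x
          · exact Or.inl ((hmA x).2 ⟨hN, hx⟩)
          · exact Or.inr (Or.inl ((hmB x).2 ⟨hN, hx⟩)))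
      (by
        intro x hx y hy hxy
        have hx' := (hmA x).1 hx
        have hy' := (hmB y).1 hy
        exact hy'.2 (hx'.2.tail (Or.inl ⟨by simpa using hx'.1, by simpa using hy'.1, hxy⟩)))
    rcases h1 with h1 | h1
    · exact huu (Finset.card_le_one.1 h1 u huA u' hu'A)
    · exact hvv (Finset.card_le_one.1 h1 v hvB v' hv'B)
  · intro h A B hAN hBN hAB hall hno
    by_contra hcon
    push Not at hcon
    obtain ⟨u, hu, u', hu', huu⟩ := Finset.one_lt_card.1 hcon.1
    obtain ⟨v, hv, v', hv', hvv⟩ := Finset.one_lt_card.1 hcon.2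
    have hr := h u u' v v' (Finset.disjoint_left.1 hAN hu) (Finset.disjoint_left.1 hAN hu')
      (Finset.disjoint_left.1 hBN hv) (Finset.disjoint_left.1 hBN hv') huu hvv
    have key : ∀ x, ReflTransGen (Sr2 G (N : Set V) u u' v v') u x → x ∈ A := by
      intro x hx
      induction hx with
      | refl => exact hu
      | @tail b c hb h1 ih =>
        rcases h1 with h1 | h1 | h1
        · rcases hall c with h2 | h2 | h2
          · exact h2
          · exact absurd h1.2.2 (hno b ih c h2)
          · exact absurd h2 (by simpa using h1.2.1)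
        · rw [h1.2]; exact hu'
        · rw [h1.1] at ih
          exact absurd hv' (Finset.disjoint_left.1 hAB ih)
    exact Finset.disjoint_left.1 hAB (key v hr) hv

/-- The steps in the double cover of `G - v`. -/
def Db (G : SimpleGraph V) (v : V) (p q : V × Bool) : Prop :=
  p.1 ≠ v ∧ q.1 ≠ v ∧ G.Adj p.1 q.1 ∧ q.2 = !p.2

theorem Db.symm {G : SimpleGraph V} {v : V} {p q : V × Bool} (h : Db G v p q) : Db G v q p :=
  ⟨h.2.1, h.1, h.2.2.1.symm, by rw [h.2.2.2, Bool.not_not]⟩

theorem Db.flip {G : SimpleGraph V} {v : V} {p q : V × Bool} (h : Db G v p q) :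
    Db G v (p.1, !p.2) (q.1, !q.2) := ⟨h.1, h.2.1, h.2.2.1, by simp [h.2.2.2]⟩

theorem db_back {G : SimpleGraph V} {v : V} {p q : V × Bool} (h : ReflTransGen (Db G v) p q) :
    ReflTransGen (Db G v) q p := by
  induction h with
  | refl => exact ReflTransGen.refl
  | tail _ h ih => exact ReflTransGen.head h.symm ih

theorem db_flip {G : SimpleGraph V} {v : V} {p q : V × Bool} (h : ReflTransGen (Db G v) p q) :
    ReflTransGen (Db G v) (p.1, !p.2) (q.1, !q.2) := by
  induction h with
  | refl => exact ReflTransGen.refl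
  | tail _ h ih => exact ih.tail h.flip

/-- `G - v` is bipartite for some `v`. -/
theorem apex_iff (G : SimpleGraph V) :
    Apex G ↔ ∃ v, ∀ x, ¬ ReflTransGen (Db G v) (x, false) (x, true) := by
  classical
  constructor
  · rintro ⟨v, c, hc⟩
    refine ⟨v, fun x hx => ?_⟩
    have key : ∀ p q : V × Bool, ReflTransGen (Db G v) p q → xor (c q.1) q.2 = xor (c p.1) p.2 := by
      intro p q h
      induction h with
      | refl => rfl
      | @tail b d hb h ih =>
        rw [← ih]
        have h1 := hc b.1 d.1 h.1 h.2.1 h.2.2.1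
        rw [h.2.2.2]
        revert h1
        cases c b.1 <;> cases c d.1 <;> cases b.2 <;> simp
    have := key _ _ hx
    revert this
    cases c x <;> simp
  · rintro ⟨v, hv⟩
    -- the component of `x`
    let R : V → V → Prop := fun x y => ∃ b, ReflTransGen (Db G v) (x, false) (y, b)
    have hRr : ∀ x, R x x := fun x => ⟨false, ReflTransGen.refl⟩
    have norm : ∀ x y b b', ReflTransGen (Db G v) (x, b) (y, b') → R x y := by
      intro x y b b' h
      cases b with
      | false => exact ⟨b', h⟩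
      | true => exact ⟨!b', db_flip h⟩
    have hRs : ∀ {x y}, R x y → R y x := by
      rintro x y ⟨b, h⟩
      exact norm _ _ _ _ (db_back h)
    have hRt : ∀ {x y z}, R x y → R y z → R x z := by
      rintro x y z ⟨b, h⟩ ⟨b', h'⟩
      cases b with
      | false => exact ⟨b', h.trans h'⟩
      | true => exact ⟨!b', h.trans (db_flip h')⟩
    let S : Setoid V := ⟨R, hRr, hRs, hRt⟩
    let rt : V → V := fun x => (Quotient.mk S x).out
    have hrt : ∀ x, R (rt x) x := fun x => Quotient.exact (Quotient.out_eq (Quotient.mk S x))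
    refine ⟨v, fun x => decide (ReflTransGen (Db G v) (rt x, false) (x, true)), ?_⟩
    intro x y hx hy hxy
    have hsame : rt x = rt y := by
      have h1 : R x y := ⟨true, ReflTransGen.single ⟨hx, hy, hxy, rfl⟩⟩
      show (Quotient.mk S x).out = (Quotient.mk S y).out
      rw [Quotient.sound (s := S) h1]
    have uniq : ∀ z, ReflTransGen (Db G v) (rt z, false) (z, false) ↔
        ¬ ReflTransGen (Db G v) (rt z, false) (z, true) := by
      intro z
      constructor
      · intro h1 h2
        exact hv z ((db_back h1).trans h2)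
      · intro h1
        obtain ⟨b, hb⟩ := hrt z
        cases b with
        | false => exact hb
        | true => exact absurd hb h1
    have hedge : ReflTransGen (Db G v) (rt x, false) (x, true) ↔
        ReflTransGen (Db G v) (rt y, false) (y, false) := by
      rw [hsame]
      constructor
      · intro h; exact h.tail ⟨hx, hy, hxy, rfl⟩
      · intro h; exact h.tail ⟨hy, hx, hxy.symm, rfl⟩
    intro heq
    have h1 : ReflTransGen (Db G v) (rt x, false) (x, true) ↔
        ReflTransGen (Db G v) (rt y, false) (y, true) := decide_eq_decide.1 heq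
    rw [hedge, uniq] at h1
    exact not_iff_self h1

end Pool.Agent.Lib.MPded8ec.ALG
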