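import Pool.Agent.Lib.MP_5d9c5f_lc.Poly
import Pool.Agent.Lib.PolyTime.Raw

/-!
# The algorithm, and its running time

A graph with the vertices `0, .., n-1` is given by the bits `w` of its adjacency matrix.
-/

set_option autoImplicit false

namespace Pool.Agent.Lib.MPded8ec.ALG

open Pool.Agent.PolyTime Pool.Agent.MP_5d9c5f

/-- The name of a vertex. -/
def nm (i : ℕ) : Vtx := List.replicate i true

/-- The bit of the adjacency matrix. -/
def adjB (n : ℕ) (w : List Bool) (i j : ℕ) : Bool := w.getD (i * n + j) false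

/-- The arcs of `G - X`. -/
def arcs (n : ℕ) (w : List Bool) (X : List ℕ) : List (Vtx × Vtx) :=
  (List.range n).flatMap fun i => (List.range n).flatMap fun j =>
    if adjB n w i j && (!decide (i ∈ X) && !decide (j ∈ X)) then [(nm i, nm j)] else []

/-- The arcs of the double cover of `G - v`. -/
def arcs2 (n : ℕ) (w : List Bool) (v : ℕ) : List (Vtx × Vtx) :=
  (List.range n).flatMap fun i => (List.range n).flatMap fun j =>
    if adjB n w i j && (!decide (i = v) && !decide (j = v)) then
      [(false :: nm i, true :: nm j), (true :: nm i, false :: nm j)] else []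

/-- `G - X` is connected. -/
def connB (n : ℕ) (w : List Bool) (X : List ℕ) : Bool :=
  (List.range n).any (fun i => !decide (i ∈ X)) &&
    (List.range n).all fun s => (List.range n).all fun t =>
      decide (s ∈ X) || (decide (t ∈ X) || reach (arcs n w X) (nm s) (nm t))

/-- No separation of `G - X` into two sets with at least two elements. -/
def sepB (n : ℕ) (w : List Bool) (X : List ℕ) : Bool :=
  (List.range n).all fun u => (List.range n).all fun u' =>
    (List.range n).all fun v => (List.range n).all fun v' =>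
      decide (u ∈ X) || (decide (u' ∈ X) || (decide (v ∈ X) || (decide (v' ∈ X) ||
        (decide (u = u') || (decide (v = v') ||
          reach (arcs n w X ++ [(nm u, nm u'), (nm v', nm v)]) (nm u) (nm v))))))

/-- 3-connectedness. -/
def conn3B (n : ℕ) (w : List Bool) : Bool :=
  decide (4 ≤ n) && (connB n w [] &&
    (List.range n).all fun a => (List.range n).all fun b => connB n w [a, b])

/-- 4-connectedness. -/
def conn4B (n : ℕ) (w : List Bool) : Bool :=
  decide (5 ≤ n) && (connB n w [] &&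
    (List.range n).all fun a => (List.range n).all fun b => (List.range n).all fun c =>
      connB n w [a, b, c])

/-- Internal 4-connectedness. -/
def iconn4B (n : ℕ) (w : List Bool) : Bool :=
  conn3B n w &&
    (List.range n).all fun a => (List.range n).all fun b => (List.range n).all fun c =>
      decide (a = b) || (decide (a = c) || (decide (b = c) || sepB n w [a, b, c]))

/-- `G - v` is bipartite for some `v`. -/
def apexB (n : ℕ) (w : List Bool) : Bool :=
  (List.range n).any fun v => (List.range n).all fun i =>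
    !reach (arcs2 n w v) (false :: nm i) (true :: nm i)

/-- The number of the vertices: the square root of the length of the input. -/
def side (w : List Bool) : ℕ :=
  ((List.range (w.length + 1)).find? fun k => decide (k * k = w.length)).getD 0

/-! ### polynomial time -/

section pt

universe u

variable {α : Type u} [Rep α]

theorem PT.nm {i : α → ℕ} (hi : PT i) : PT (fun a => nm (i a)) :=
  PT.replicate hi (PT.const true)

theorem PT.adjB {n : α → ℕ} {w : α → List Bool} {i j : α → ℕ} (hn : PT n) (hw : PT w)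
    (hi : PT i) (hj : PT j) : PT (fun a => adjB (n a) (w a) (i a) (j a)) :=
  PT.listGetD hw (PT.add (PT.mul hi hn) hj) (PT.const false)

theorem PT.arcs {n : α → ℕ} {w : α → List Bool} {X : α → List ℕ} (hn : PT n) (hw : PT w)
    (hX : PT X) : PT (fun a => arcs (n a) (w a) (X a)) := by
  refine PT.flatMap (g := fun a i => (List.range (n a)).flatMap fun j =>
    if ALG.adjB (n a) (w a) i j && (!decide (i ∈ X a) && !decide (j ∈ X a)) then
      [(ALG.nm i, ALG.nm j)] else []) (PT.range hn) ?_
  refine PT.flatMap (α := α × ℕ) (l := fun p => List.range (n p.1)) (g := fun p j =>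
    if ALG.adjB (n p.1) (w p.1) p.2 j && (!decide (p.2 ∈ X p.1) && !decide (j ∈ X p.1)) then
      [(ALG.nm p.2, ALG.nm j)] else []) (PT.range (hn.comp PT.id.fst)) ?_
  have hn' : PT (fun p : (α × ℕ) × ℕ => n p.1.1) := hn.comp PT.id.fst.fst
  have hw' : PT (fun p : (α × ℕ) × ℕ => w p.1.1) := hw.comp PT.id.fst.fst
  have hX' : PT (fun p : (α × ℕ) × ℕ => X p.1.1) := hX.comp PT.id.fst.fst
  have hi : PT (fun p : (α × ℕ) × ℕ => p.1.2) := PT.id.fst.snd
  have hj : PT (fun p : (α × ℕ) × ℕ => p.2) := PT.id.snd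
  exact PT.ite (PT.and (PT.adjB hn' hw' hi hj)
    (PT.and (PT.contains hi hX').not (PT.contains hj hX').not))
    (PT.cons (PT.pair (PT.nm hi) (PT.nm hj)) (PT.const [])) (PT.const [])

theorem PT.arcs2 {n : α → ℕ} {w : α → List Bool} {v : α → ℕ} (hn : PT n) (hw : PT w)
    (hv : PT v) : PT (fun a => arcs2 (n a) (w a) (v a)) := by
  refine PT.flatMap (g := fun a i => (List.range (n a)).flatMap fun j =>
    if ALG.adjB (n a) (w a) i j && (!decide (i = v a) && !decide (j = v a)) then
      [(false :: ALG.nm i, true :: ALG.nm j), (true :: ALG.nm i, false :: ALG.nm j)] else [])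
    (PT.range hn) ?_
  refine PT.flatMap (α := α × ℕ) (l := fun p => List.range (n p.1)) (g := fun p j =>
    if ALG.adjB (n p.1) (w p.1) p.2 j && (!decide (p.2 = v p.1) && !decide (j = v p.1)) then
      [(false :: ALG.nm p.2, true :: ALG.nm j), (true :: ALG.nm p.2, false :: ALG.nm j)] else [])
    (PT.range (hn.comp PT.id.fst)) ?_
  have hn' : PT (fun p : (α × ℕ) × ℕ => n p.1.1) := hn.comp PT.id.fst.fst
  have hw' : PT (fun p : (α × ℕ) × ℕ => w p.1.1) := hw.comp PT.id.fst.fst
  have hv' : PT (fun p : (α × ℕ) × ℕ => v p.1.1) := hv.comp PT.id.fst.fst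
  have hi : PT (fun p : (α × ℕ) × ℕ => p.1.2) := PT.id.fst.snd
  have hj : PT (fun p : (α × ℕ) × ℕ => p.2) := PT.id.snd
  refine PT.ite (PT.and (PT.adjB hn' hw' hi hj)
    (PT.and (PT.natEq hi hv').not (PT.natEq hj hv').not)) ?_ (PT.const [])
  exact PT.cons (PT.pair (PT.cons (PT.const false) (PT.nm hi)) (PT.cons (PT.const true) (PT.nm hj)))
    (PT.cons (PT.pair (PT.cons (PT.const true) (PT.nm hi))
      (PT.cons (PT.const false) (PT.nm hj))) (PT.const []))

/-- A loop over the vertices. -/
theorem PT.allR {n : α → ℕ} {g : α → ℕ → Bool} (hn : PT n)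
    (hg : PT (fun p : α × ℕ => g p.1 p.2)) : PT (fun a => (List.range (n a)).all (g a)) :=
  PT.all (PT.range hn) hg

theorem PT.anyR {n : α → ℕ} {g : α → ℕ → Bool} (hn : PT n)
    (hg : PT (fun p : α × ℕ => g p.1 p.2)) : PT (fun a => (List.range (n a)).any (g a)) :=
  PT.any (PT.range hn) hg

theorem PT.connB {n : α → ℕ} {w : α → List Bool} {X : α → List ℕ} (hn : PT n) (hw : PT w)
    (hX : PT X) : PT (fun a => connB (n a) (w a) (X a)) := by
  refine PT.and (PT.anyR (g := fun a i => !decide (i ∈ X a)) hn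
    (PT.contains PT.id.snd (hX.comp PT.id.fst)).not) ?_
  refine PT.allR (g := fun a s => (List.range (n a)).all fun t =>
      decide (s ∈ X a) || (decide (t ∈ X a) ||
        reach (ALG.arcs (n a) (w a) (X a)) (ALG.nm s) (ALG.nm t))) hn ?_
  refine PT.allR (α := α × ℕ) (n := fun p => n p.1) (g := fun p t =>
      decide (p.2 ∈ X p.1) || (decide (t ∈ X p.1) ||
        reach (ALG.arcs (n p.1) (w p.1) (X p.1)) (ALG.nm p.2) (ALG.nm t)))
    (hn.comp PT.id.fst) ?_
  have hn' : PT (fun p : (α × ℕ) × ℕ => n p.1.1) := hn.comp PT.id.fst.fst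
  have hw' : PT (fun p : (α × ℕ) × ℕ => w p.1.1) := hw.comp PT.id.fst.fst
  have hX' : PT (fun p : (α × ℕ) × ℕ => X p.1.1) := hX.comp PT.id.fst.fst
  have hs : PT (fun p : (α × ℕ) × ℕ => p.1.2) := PT.id.fst.snd
  have ht : PT (fun p : (α × ℕ) × ℕ => p.2) := PT.id.snd
  exact PT.or (PT.contains hs hX') (PT.or (PT.contains ht hX')
    (PT.reach (PT.arcs hn' hw' hX') (PT.nm hs) (PT.nm ht)))

theorem PT.sepB {n : α → ℕ} {w : α → List Bool} {X : α → List ℕ} (hn : PT n) (hw : PT w)
    (hX : PT X) : PT (fun a => sepB (n a) (w a) (X a)) := by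
  let body : α → ℕ → ℕ → ℕ → ℕ → Bool := fun a u u' v v' =>
      decide (u ∈ X a) || (decide (u' ∈ X a) || (decide (v ∈ X a) || (decide (v' ∈ X a) ||
        (decide (u = u') || (decide (v = v') ||
          reach (ALG.arcs (n a) (w a) (X a) ++ [(ALG.nm u, ALG.nm u'), (ALG.nm v', ALG.nm v)])
            (ALG.nm u) (ALG.nm v))))))
  refine PT.allR (g := fun a u => (List.range (n a)).all fun u' =>
    (List.range (n a)).all fun v => (List.range (n a)).all fun v' => body a u u' v v') hn ?_
  refine PT.allR (α := α × ℕ) (n := fun p => n p.1) (g := fun p u' =>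
    (List.range (n p.1)).all fun v => (List.range (n p.1)).all fun v' => body p.1 p.2 u' v v')
    (hn.comp PT.id.fst) ?_
  refine PT.allR (α := (α × ℕ) × ℕ) (n := fun p => n p.1.1) (g := fun p v =>
    (List.range (n p.1.1)).all fun v' => body p.1.1 p.1.2 p.2 v v')
    (hn.comp PT.id.fst.fst) ?_
  refine PT.allR (α := ((α × ℕ) × ℕ) × ℕ) (n := fun p => n p.1.1.1) (g := fun p v' =>
    body p.1.1.1 p.1.1.2 p.1.2 p.2 v') (hn.comp PT.id.fst.fst.fst) ?_
  have hn' : PT (fun p : (((α × ℕ) × ℕ) × ℕ) × ℕ => n p.1.1.1.1) := hn.comp PT.id.fst.fst.fst.fst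
  have hw' : PT (fun p : (((α × ℕ) × ℕ) × ℕ) × ℕ => w p.1.1.1.1) := hw.comp PT.id.fst.fst.fst.fst
  have hX' : PT (fun p : (((α × ℕ) × ℕ) × ℕ) × ℕ => X p.1.1.1.1) := hX.comp PT.id.fst.fst.fst.fst
  have hu : PT (fun p : (((α × ℕ) × ℕ) × ℕ) × ℕ => p.1.1.1.2) := PT.id.fst.fst.fst.snd
  have hu' : PT (fun p : (((α × ℕ) × ℕ) × ℕ) × ℕ => p.1.1.2) := PT.id.fst.fst.snd
  have hv : PT (fun p : (((α × ℕ) × ℕ) × ℕ) × ℕ => p.1.2) := PT.id.fst.snd
  have hv' : PT (fun p : (((α × ℕ) × ℕ) × ℕ) × ℕ => p.2) := PT.id.snd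
  exact PT.or (PT.contains hu hX') (PT.or (PT.contains hu' hX') (PT.or (PT.contains hv hX')
    (PT.or (PT.contains hv' hX') (PT.or (PT.natEq hu hu') (PT.or (PT.natEq hv hv')
      (PT.reach (PT.append (PT.arcs hn' hw' hX') (PT.cons (PT.pair (PT.nm hu) (PT.nm hu'))
        (PT.cons (PT.pair (PT.nm hv') (PT.nm hv)) (PT.const [])))) (PT.nm hu) (PT.nm hv)))))))

/-- Two nested loops over the vertices. -/
theorem PT.all2 {n : α → ℕ} {g : α → ℕ → ℕ → Bool} (hn : PT n)
    (hg : PT (fun p : (α × ℕ) × ℕ => g p.1.1 p.1.2 p.2)) :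
    PT (fun a => (List.range (n a)).all fun x => (List.range (n a)).all fun y => g a x y) :=
  PT.allR (g := fun a x => (List.range (n a)).all fun y => g a x y) hn
    (PT.allR (α := α × ℕ) (n := fun p => n p.1) (g := fun p y => g p.1 p.2 y)
      (hn.comp PT.id.fst) hg)

/-- Three nested loops over the vertices. -/
theorem PT.all3 {n : α → ℕ} {g : α → ℕ → ℕ → ℕ → Bool} (hn : PT n)
    (hg : PT (fun p : ((α × ℕ) × ℕ) × ℕ => g p.1.1.1 p.1.1.2 p.1.2 p.2)) :
    PT (fun a => (List.range (n a)).all fun x => (List.range (n a)).all fun y =>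
      (List.range (n a)).all fun z => g a x y z) :=
  PT.allR (g := fun a x => (List.range (n a)).all fun y => (List.range (n a)).all fun z => g a x y z)
    hn (PT.all2 (α := α × ℕ) (n := fun p => n p.1) (g := fun p y z => g p.1 p.2 y z)
      (hn.comp PT.id.fst) hg)

theorem PT.conn3B {n : α → ℕ} {w : α → List Bool} (hn : PT n) (hw : PT w) :
    PT (fun a => conn3B (n a) (w a)) := by
  refine PT.and (PT.le (PT.const 4) hn) (PT.and (PT.connB hn hw (PT.const [])) ?_)
  refine PT.all2 (g := fun a x y => ALG.connB (n a) (w a) [x, y]) hn ?_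
  exact PT.connB (hn.comp PT.id.fst.fst) (hw.comp PT.id.fst.fst)
    (PT.cons PT.id.fst.snd (PT.cons PT.id.snd (PT.const [])))

theorem PT.conn4B {n : α → ℕ} {w : α → List Bool} (hn : PT n) (hw : PT w) :
    PT (fun a => conn4B (n a) (w a)) := by
  refine PT.and (PT.le (PT.const 5) hn) (PT.and (PT.connB hn hw (PT.const [])) ?_)
  refine PT.all3 (g := fun a x y z => ALG.connB (n a) (w a) [x, y, z]) hn ?_
  exact PT.connB (hn.comp PT.id.fst.fst.fst) (hw.comp PT.id.fst.fst.fst)
    (PT.cons PT.id.fst.fst.snd (PT.cons PT.id.fst.snd (PT.cons PT.id.snd (PT.const []))))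

theorem PT.iconn4B {n : α → ℕ} {w : α → List Bool} (hn : PT n) (hw : PT w) :
    PT (fun a => iconn4B (n a) (w a)) := by
  refine PT.and (PT.conn3B hn hw) ?_
  refine PT.all3 (g := fun a x y z => decide (x = y) || (decide (x = z) || (decide (y = z) ||
    ALG.sepB (n a) (w a) [x, y, z]))) hn ?_
  have hx : PT (fun p : ((α × ℕ) × ℕ) × ℕ => p.1.1.2) := PT.id.fst.fst.snd
  have hy : PT (fun p : ((α × ℕ) × ℕ) × ℕ => p.1.2) := PT.id.fst.snd
  have hz : PT (fun p : ((α × ℕ) × ℕ) × ℕ => p.2) := PT.id.snd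
  exact PT.or (PT.natEq hx hy) (PT.or (PT.natEq hx hz) (PT.or (PT.natEq hy hz)
    (PT.sepB (hn.comp PT.id.fst.fst.fst) (hw.comp PT.id.fst.fst.fst)
      (PT.cons hx (PT.cons hy (PT.cons hz (PT.const [])))))))

theorem PT.apexB {n : α → ℕ} {w : α → List Bool} (hn : PT n) (hw : PT w) :
    PT (fun a => apexB (n a) (w a)) := by
  refine PT.anyR (g := fun a v => (List.range (n a)).all fun i =>
    !reach (ALG.arcs2 (n a) (w a) v) (false :: ALG.nm i) (true :: ALG.nm i)) hn ?_
  refine PT.allR (α := α × ℕ) (n := fun p => n p.1) (g := fun p i =>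
    !reach (ALG.arcs2 (n p.1) (w p.1) p.2) (false :: ALG.nm i) (true :: ALG.nm i))
    (hn.comp PT.id.fst) ?_
  exact (PT.reach (PT.arcs2 (hn.comp PT.id.fst.fst) (hw.comp PT.id.fst.fst) PT.id.fst.snd)
    (PT.cons (PT.const false) (PT.nm PT.id.snd)) (PT.cons (PT.const true) (PT.nm PT.id.snd))).not

theorem PT.side {w : α → List Bool} (hw : PT w) : PT (fun a => side (w a)) := by
  refine PT.getD (PT.find? (g := fun a k => decide (k * k = (w a).length))
    (PT.range (PT.succ (PT.length hw))) ?_) (PT.const 0)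
  exact PT.natEq (PT.mul PT.id.snd PT.id.snd) (PT.length (hw.comp PT.id.fst))

end pt

end Pool.Agent.Lib.MPded8ec.ALG
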