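import Pool.Agent.Lib.MP_ded8ec_lc.ALG.Defs
import Pool.Agent.Lib.MP_ded8ec_lc.ALG.Graph
import Pool.Agent.Lib.MP_ded8ec_lc.ALG.Prog

/-!
# The algorithm is correct
-/

set_option autoImplicit false

namespace Pool.Agent.Lib.MPded8ec.ALG

open Pool.Agent.PolyTime Pool.Agent.MP_5d9c5f Relation
open Pool.Agent.Lib.MPded8ec.SG Pool.Agent.Lib.MPded8ec.FI

/-- Reachability in a list of arcs. -/
theorem reach_iff_rt (D : List (Vtx × Vtx)) (s t : Vtx) :
    reach D s t = true ↔ ReflTransGen (fun a b => (a, b) ∈ D) s t := by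
  classical
  rw [reach_iff]
  constructor
  · intro h
    by_contra hcon
    let U : Finset Vtx := (s :: D.map Prod.snd).toFinset.filter
      fun y => ReflTransGen (fun a b => (a, b) ∈ D) s y
    have hU : ∀ y, y ∈ U ↔ y ∈ s :: D.map Prod.snd ∧ ReflTransGen (fun a b => (a, b) ∈ D) s y :=
      fun y => by simp [U]
    obtain ⟨a, ha, ha1, ha2⟩ := h U ((hU s).2 ⟨List.mem_cons_self, ReflTransGen.refl⟩)
      (fun h1 => hcon ((hU t).1 h1).2)
    refine ha2 ((hU _).2 ⟨List.mem_cons_of_mem _ (List.mem_map.2 ⟨a, ha, rfl⟩), ?_⟩)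
    exact ((hU _).1 ha1).2.tail ha
  · intro h U hs ht
    by_contra hcon
    push Not at hcon
    have key : ∀ y, ReflTransGen (fun a b => (a, b) ∈ D) s y → y ∈ U := by
      intro y hy
      induction hy with
      | refl => exact hs
      | tail _ h1 ih => exact hcon _ h1 ih
    exact ht (key t h)

/-- Transfer of reachability along an injective naming. -/
theorem rt_transfer {V : Type} (φ : V → Vtx) (hφ : Function.Injective φ) (r : V → V → Prop)
    (D : List (Vtx × Vtx)) (hD : ∀ a b, (a, b) ∈ D ↔ ∃ x y, r x y ∧ a = φ x ∧ b = φ y) (s t : V) :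
    reach D (φ s) (φ t) = true ↔ ReflTransGen r s t := by
  rw [reach_iff_rt]
  constructor
  · intro h
    have key : ∀ b, ReflTransGen (fun a b => (a, b) ∈ D) (φ s) b →
        ∃ y, b = φ y ∧ ReflTransGen r s y := by
      intro b hb
      induction hb with
      | refl => exact ⟨s, rfl, ReflTransGen.refl⟩
      | tail _ h1 ih =>
        obtain ⟨y, rfl, hy⟩ := ih
        obtain ⟨x', y', hr, h2, h3⟩ := (hD _ _).1 h1
        have := hφ h2
        subst this
        exact ⟨y', h3, hy.tail hr⟩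
    obtain ⟨y, hy, h1⟩ := key _ h
    have := hφ hy
    subst this
    exact h1
  · intro h
    induction h with
    | refl => exact ReflTransGen.refl
    | tail _ h1 ih => exact ih.tail ((hD _ _).2 ⟨_, _, h1, rfl, rfl⟩)

theorem nm_inj {i j : ℕ} (h : nm i = nm j) : i = j := by
  have := congrArg List.length h
  simpa [nm] using this

theorem length_flat {β : Type} (L : List β) (f : β → List Bool) (m : ℕ)
    (hm : ∀ b ∈ L, (f b).length = m) : (L.flatMap f).length = L.length * m := by
  induction L with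
  | nil => simp
  | cons b L ih =>
    rw [List.flatMap_cons, List.length_append, hm b (by simp),
      ih fun c hc => hm c (List.mem_cons_of_mem _ hc), List.length_cons]
    ring

theorem getD_flat {β : Type} (f : β → List Bool) (m : ℕ) (j : ℕ) (hj : j < m) :
    ∀ (L : List β) (_ : ∀ b ∈ L, (f b).length = m) (i : ℕ) (hi : i < L.length),
      (L.flatMap f).getD (i * m + j) false = (f L[i]).getD j false := by
  intro L
  induction L with
  | nil => intro _ i hi; simp at hi
  | cons b L ih =>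
    intro hm i hi
    rw [List.flatMap_cons]
    have hb : (f b).length = m := hm b (by simp)
    cases i with
    | zero =>
      rw [List.getD_append _ _ _ _ (by omega)]
      simp
    | succ i =>
      rw [List.getD_append_right _ _ _ _ (by rw [hb]; nlinarith)]
      have e : (i + 1) * m + j - (f b).length = i * m + j := by
        rw [hb]; have : (i + 1) * m = i * m + m := by ring
        omega
      rw [e, ih (fun c hc => hm c (List.mem_cons_of_mem _ hc)) i (by simpa using hi)]
      rfl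

theorem length_code {n : ℕ} (G : SimpleGraph (Fin n)) : (code G).length = n * n := by
  unfold code
  rw [length_flat _ _ n (by intro b _; simp)]
  simp

theorem adjB_code {n : ℕ} (G : SimpleGraph (Fin n)) (i j : Fin n) :
    adjB n (code G) i j = true ↔ G.Adj i j := by
  unfold adjB code
  rw [getD_flat _ n j j.2 _ (by intro b _; simp) i (by simp)]
  rw [List.getD_eq_getElem _ _ (by simp)]
  simp

theorem side_code {n : ℕ} (G : SimpleGraph (Fin n)) : side (code G) = n := by
  unfold side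
  rw [length_code]
  have h1 : ∀ (k : ℕ), decide (k * k = n * n) = decide (k = n) := by
    intro k
    rw [decide_eq_decide]
    exact ⟨fun h => Nat.mul_self_inj.1 h, fun h => by rw [h]⟩
  have h2 : ((List.range (n * n + 1)).find? fun k => decide (k * k = n * n)) = some n := by
    rw [List.find?_eq_some_iff_append]
    refine ⟨by simp, ?_⟩
    have hn : n < n * n + 1 := by nlinarith [Nat.zero_le n]
    refine ⟨List.range n, (List.range (n * n - n)).map (fun k => n + 1 + k), ?_, ?_⟩
    · have e : n * n + 1 = n + (1 + (n * n - n)) := by omega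
      rw [e, List.range_add, List.range_add]
      simp [List.range_succ, Function.comp_def, Nat.add_assoc]
    · intro a ha
      rw [List.mem_range] at ha
      rw [h1]
      simp; omega
  rw [h2]
  rfl

theorem mem_arcs {n : ℕ} (G : SimpleGraph (Fin n)) (N : Finset (Fin n)) (X : List ℕ)
    (hX : ∀ i : Fin n, (i : ℕ) ∈ X ↔ i ∈ N) (a b : Vtx) :
    (a, b) ∈ arcs n (code G) X ↔
      ∃ x y : Fin n, Sr G (N : Set (Fin n)) x y ∧ a = nm x ∧ b = nm y := by
  unfold arcs
  simp only [List.mem_flatMap, List.mem_range]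
  constructor
  · rintro ⟨i, hi, j, hj, h⟩
    split_ifs at h with hc
    · simp only [List.mem_singleton, Prod.mk.injEq] at h
      simp only [Bool.and_eq_true, Bool.not_eq_true', decide_eq_false_iff_not] at hc
      refine ⟨⟨i, hi⟩, ⟨j, hj⟩, ⟨?_, ?_, ?_⟩, h.1, h.2⟩
      · intro h1; exact hc.2.1 ((hX ⟨i, hi⟩).2 (by simpa using h1))
      · intro h1; exact hc.2.2 ((hX ⟨j, hj⟩).2 (by simpa using h1))
      · exact (adjB_code G ⟨i, hi⟩ ⟨j, hj⟩).1 hc.1
    · simp at h
  · rintro ⟨x, y, ⟨hx, hy, hxy⟩, rfl, rfl⟩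
    refine ⟨x, x.2, y, y.2, ?_⟩
    have hc : (adjB n (code G) x y && (!decide ((x : ℕ) ∈ X) && !decide ((y : ℕ) ∈ X))) = true := by
      simp only [Bool.and_eq_true, Bool.not_eq_true', decide_eq_false_iff_not]
      refine ⟨(adjB_code G x y).2 hxy, fun h => hx ?_, fun h => hy ?_⟩
      · simpa using (hX x).1 h
      · simpa using (hX y).1 h
    rw [if_pos hc]
    simp

theorem reach_arcs {n : ℕ} (G : SimpleGraph (Fin n)) (N : Finset (Fin n)) (X : List ℕ)
    (hX : ∀ i : Fin n, (i : ℕ) ∈ X ↔ i ∈ N) (s t : Fin n) :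
    reach (arcs n (code G) X) (nm s) (nm t) = true ↔ ReflTransGen (Sr G (N : Set (Fin n))) s t :=
  rt_transfer (fun i : Fin n => nm i) (fun _ _ h => Fin.ext (nm_inj h)) _ _
    (fun a b => mem_arcs G N X hX a b) s t

theorem reach_arcs2 {n : ℕ} (G : SimpleGraph (Fin n)) (N : Finset (Fin n)) (X : List ℕ)
    (hX : ∀ i : Fin n, (i : ℕ) ∈ X ↔ i ∈ N) (u u' v v' : Fin n) :
    reach (arcs n (code G) X ++ [(nm u, nm u'), (nm v', nm v)]) (nm u) (nm v) = true ↔
      ReflTransGen (Sr2 G (N : Set (Fin n)) u u' v v') u v := by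
  refine rt_transfer (fun i : Fin n => nm i) (fun _ _ h => Fin.ext (nm_inj h)) _ _
    (fun a b => ?_) u v
  rw [List.mem_append, mem_arcs G N X hX]
  simp only [List.mem_cons, List.not_mem_nil, or_false, Prod.mk.injEq]
  constructor
  · rintro (⟨x, y, h, h1, h2⟩ | ⟨h1, h2⟩ | ⟨h1, h2⟩)
    · exact ⟨x, y, Or.inl h, h1, h2⟩
    · exact ⟨u, u', Or.inr (Or.inl ⟨rfl, rfl⟩), h1, h2⟩
    · exact ⟨v', v, Or.inr (Or.inr ⟨rfl, rfl⟩), h1, h2⟩
  · rintro ⟨x, y, h | ⟨rfl, rfl⟩ | ⟨rfl, rfl⟩, h1, h2⟩
    · exact Or.inl ⟨x, y, h, h1, h2⟩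
    · exact Or.inr (Or.inl ⟨h1, h2⟩)
    · exact Or.inr (Or.inr ⟨h1, h2⟩)

/-- The name of a vertex of the double cover. -/
def nm2 {n : ℕ} (p : Fin n × Bool) : Vtx := p.2 :: nm p.1

theorem nm2_inj {n : ℕ} : Function.Injective (nm2 (n := n)) := by
  rintro ⟨i, b⟩ ⟨j, c⟩ h
  simp only [nm2, List.cons.injEq] at h
  exact Prod.ext (Fin.ext (nm_inj h.2)) h.1

theorem reach_double {n : ℕ} (G : SimpleGraph (Fin n)) (v : Fin n) (s t : Fin n × Bool) :
    reach (arcs2 n (code G) v) (nm2 s) (nm2 t) = true ↔ ReflTransGen (Db G v) s t := by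
  refine rt_transfer nm2 nm2_inj _ _ (fun a b => ?_) s t
  unfold arcs2
  simp only [List.mem_flatMap, List.mem_range]
  constructor
  · rintro ⟨i, hi, j, hj, h⟩
    split_ifs at h with hc
    · simp only [Bool.and_eq_true, Bool.not_eq_true', decide_eq_false_iff_not] at hc
      have hadj := (adjB_code G ⟨i, hi⟩ ⟨j, hj⟩).1 hc.1
      have hiv : (⟨i, hi⟩ : Fin n) ≠ v := fun h1 => hc.2.1 (congrArg Fin.val h1)
      have hjv : (⟨j, hj⟩ : Fin n) ≠ v := fun h1 => hc.2.2 (congrArg Fin.val h1)
      simp only [List.mem_cons, Prod.mk.injEq, List.not_mem_nil, or_false] at h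
      rcases h with ⟨h1, h2⟩ | ⟨h1, h2⟩
      · exact ⟨(⟨i, hi⟩, false), (⟨j, hj⟩, true), ⟨hiv, hjv, hadj, rfl⟩, h1, h2⟩
      · exact ⟨(⟨i, hi⟩, true), (⟨j, hj⟩, false), ⟨hiv, hjv, hadj, rfl⟩, h1, h2⟩
    · simp at h
  · rintro ⟨⟨x, b⟩, ⟨y, c⟩, ⟨hx, hy, hxy, hc⟩, rfl, rfl⟩
    refine ⟨x, x.2, y, y.2, ?_⟩
    have hcond : (adjB n (code G) x y &&
        (!decide ((x : ℕ) = v) && !decide ((y : ℕ) = v))) = true := by
      simp only [Bool.and_eq_true, Bool.not_eq_true', decide_eq_false_iff_not]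
      exact ⟨(adjB_code G x y).2 hxy, fun h => hx (Fin.ext h), fun h => hy (Fin.ext h)⟩
    rw [if_pos hcond]
    simp only [nm2] at hc ⊢
    subst hc
    cases b <;> simp

theorem all_range_iff {n : ℕ} (p : ℕ → Bool) :
    (List.range n).all p = true ↔ ∀ i : Fin n, p i = true := by
  rw [List.all_eq_true]
  exact ⟨fun h i => h i (List.mem_range.2 i.2), fun h i hi => h ⟨i, List.mem_range.1 hi⟩⟩

theorem any_range_iff {n : ℕ} (p : ℕ → Bool) :
    (List.range n).any p = true ↔ ∃ i : Fin n, p i = true := by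
  rw [List.any_eq_true]
  constructor
  · rintro ⟨i, hi, h⟩; exact ⟨⟨i, List.mem_range.1 hi⟩, h⟩
  · rintro ⟨i, h⟩; exact ⟨i, List.mem_range.2 i.2, h⟩

theorem connB_iff {n : ℕ} (G : SimpleGraph (Fin n)) (N : Finset (Fin n)) (X : List ℕ)
    (hX : ∀ i : Fin n, (i : ℕ) ∈ X ↔ i ∈ N) :
    connB n (code G) X = true ↔ (G.induce ((N : Set (Fin n))ᶜ)).Connected := by
  rw [conn_iff]
  unfold connB
  rw [Bool.and_eq_true, any_range_iff, all_range_iff]
  refine and_congr ?_ ?_
  · refine exists_congr fun i => ?_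
    simp only [Bool.not_eq_true', decide_eq_false_iff_not, hX, Finset.mem_coe]
  · refine forall_congr' fun s => ?_
    rw [all_range_iff]
    refine forall_congr' fun t => ?_
    simp only [Bool.or_eq_true, decide_eq_true_eq, hX, reach_arcs G N X hX, Finset.mem_coe]
    tauto

theorem sepB_iff {n : ℕ} (G : SimpleGraph (Fin n)) (N : Finset (Fin n)) (X : List ℕ)
    (hX : ∀ i : Fin n, (i : ℕ) ∈ X ↔ i ∈ N) :
    sepB n (code G) X = true ↔
      ∀ A B : Finset (Fin n), Disjoint A N → Disjoint B N → Disjoint A B →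
        (∀ x, x ∈ A ∨ x ∈ B ∨ x ∈ N) → (∀ x ∈ A, ∀ y ∈ B, ¬ G.Adj x y) →
        A.card ≤ 1 ∨ B.card ≤ 1 := by
  rw [sep_iff]
  unfold sepB
  rw [all_range_iff]
  refine forall_congr' fun u => ?_
  rw [all_range_iff]
  refine forall_congr' fun u' => ?_
  rw [all_range_iff]
  refine forall_congr' fun v => ?_
  rw [all_range_iff]
  refine forall_congr' fun v' => ?_
  have h1 : ((u : ℕ) = u') ↔ u = u' := Fin.ext_iff.symm
  have h2 : ((v : ℕ) = v') ↔ v = v' := Fin.ext_iff.symm
  simp only [Bool.or_eq_true, decide_eq_true_eq, hX, reach_arcs2 G N X hX, h1, h2, ne_eq]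
  tauto

theorem apexB_iff {n : ℕ} (G : SimpleGraph (Fin n)) : apexB n (code G) = true ↔ Apex G := by
  rw [apex_iff]
  unfold apexB
  rw [any_range_iff]
  refine exists_congr fun v => ?_
  rw [all_range_iff]
  refine forall_congr' fun i => ?_
  have h := reach_double G v (i, false) (i, true)
  simp only [nm2] at h
  rw [Bool.not_eq_true', ← h, Bool.not_eq_true]

theorem mem_pair {n : ℕ} (a b i : Fin n) :
    (i : ℕ) ∈ [(a : ℕ), (b : ℕ)] ↔ i ∈ ({a, b} : Finset (Fin n)) := by
  simp [Fin.ext_iff]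

theorem mem_triple {n : ℕ} (a b c i : Fin n) :
    (i : ℕ) ∈ [(a : ℕ), (b : ℕ), (c : ℕ)] ↔ i ∈ ({a, b, c} : Finset (Fin n)) := by
  simp [Fin.ext_iff]

theorem mem_none {n : ℕ} (i : Fin n) : (i : ℕ) ∈ ([] : List ℕ) ↔ i ∈ (∅ : Finset (Fin n)) := by
  simp

/-- Sets with at most three elements. -/
theorem small {n : ℕ} (N : Finset (Fin n)) (h : N.card ≤ 3) :
    N = ∅ ∨ ∃ a b c, N = {a, b, c} := by
  rcases Nat.lt_or_ge N.card 3 with h1 | h1
  · rcases Nat.lt_or_ge N.card 2 with h2 | h2
    · rcases Nat.lt_or_ge N.card 1 with h3 | h3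
      · left; exact Finset.card_eq_zero.1 (by omega)
      · obtain ⟨a, rfl⟩ := Finset.card_eq_one.1 (by omega : N.card = 1)
        right; exact ⟨a, a, a, by simp⟩
    · obtain ⟨a, b, _, rfl⟩ := Finset.card_eq_two.1 (by omega : N.card = 2)
      right; exact ⟨a, b, b, by simp⟩
  · obtain ⟨a, b, c, _, _, _, rfl⟩ := Finset.card_eq_three.1 (by omega : N.card = 3)
    right; exact ⟨a, b, c, rfl⟩

theorem small2 {n : ℕ} (N : Finset (Fin n)) (h : N.card ≤ 2) :
    N = ∅ ∨ ∃ a b, N = {a, b} := by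
  rcases Nat.lt_or_ge N.card 2 with h2 | h2
  · rcases Nat.lt_or_ge N.card 1 with h3 | h3
    · left; exact Finset.card_eq_zero.1 (by omega)
    · obtain ⟨a, rfl⟩ := Finset.card_eq_one.1 (by omega : N.card = 1)
      right; exact ⟨a, a, by simp⟩
  · obtain ⟨a, b, _, rfl⟩ := Finset.card_eq_two.1 (by omega : N.card = 2)
    right; exact ⟨a, b, rfl⟩

theorem conn4B_iff {n : ℕ} (G : SimpleGraph (Fin n)) : conn4B n (code G) = true ↔ Conn4 G := by
  unfold conn4B Conn4
  rw [Bool.and_eq_true, decide_eq_true_eq, Fintype.card_fin]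
  refine and_congr Iff.rfl ?_
  rw [Bool.and_eq_true, connB_iff G ∅ [] mem_none]
  constructor
  · rintro ⟨h0, h1⟩ N hN
    rcases small N hN with rfl | ⟨a, b, c, rfl⟩
    · exact h0
    · have h2 := (all_range_iff _).1 h1 a
      have h3 := (all_range_iff _).1 h2 b
      have h4 := (all_range_iff _).1 h3 c
      exact (connB_iff G _ _ (mem_triple a b c)).1 h4
  · intro h
    refine ⟨h ∅ (by simp), ?_⟩
    refine (all_range_iff _).2 fun a => (all_range_iff _).2 fun b => (all_range_iff _).2 fun c => ?_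
    exact (connB_iff G _ _ (mem_triple a b c)).2 (h _ Finset.card_le_three)

theorem conn3B_iff {n : ℕ} (G : SimpleGraph (Fin n)) : conn3B n (code G) = true ↔ Conn3 G := by
  unfold conn3B Conn3
  rw [Bool.and_eq_true, decide_eq_true_eq, Fintype.card_fin]
  refine and_congr Iff.rfl ?_
  rw [Bool.and_eq_true, connB_iff G ∅ [] mem_none]
  constructor
  · rintro ⟨h0, h1⟩ N hN
    rcases small2 N hN with rfl | ⟨a, b, rfl⟩
    · exact h0
    · have h2 := (all_range_iff _).1 h1 a
      have h3 := (all_range_iff _).1 h2 b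
      exact (connB_iff G _ _ (mem_pair a b)).1 h3
  · intro h
    refine ⟨h ∅ (by simp), ?_⟩
    refine (all_range_iff _).2 fun a => (all_range_iff _).2 fun b => ?_
    exact (connB_iff G _ _ (mem_pair a b)).2 (h _ Finset.card_le_two)

theorem iconn4B_iff {n : ℕ} (G : SimpleGraph (Fin n)) :
    iconn4B n (code G) = true ↔ IConn4 G := by
  unfold iconn4B IConn4
  rw [Bool.and_eq_true, conn3B_iff]
  refine and_congr Iff.rfl ?_
  constructor
  · intro h N A B hN
    obtain ⟨a, b, c, hab, hac, hbc, rfl⟩ := Finset.card_eq_three.1 hN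
    have h2 := (all_range_iff _).1 h a
    have h3 := (all_range_iff _).1 h2 b
    have h4 := (all_range_iff _).1 h3 c
    simp only [Bool.or_eq_true, decide_eq_true_eq] at h4
    have h5 : sepB n (code G) [(a : ℕ), (b : ℕ), (c : ℕ)] = true := by
      rcases h4 with h4 | h4 | h4 | h4
      · exact absurd (Fin.ext h4) hab
      · exact absurd (Fin.ext h4) hac
      · exact absurd (Fin.ext h4) hbc
      · exact h4
    exact (sepB_iff G _ _ (mem_triple a b c)).1 h5 A B
  · intro h
    refine (all_range_iff _).2 fun a => (all_range_iff _).2 fun b => (all_range_iff _).2 fun c => ?_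
    simp only [Bool.or_eq_true, decide_eq_true_eq]
    by_cases hab : (a : ℕ) = b
    · exact Or.inl hab
    by_cases hac : (a : ℕ) = c
    · exact Or.inr (Or.inl hac)
    by_cases hbc : (b : ℕ) = c
    · exact Or.inr (Or.inr (Or.inl hbc))
    right; right; right
    refine (sepB_iff G _ _ (mem_triple a b c)).2 fun A B => h _ A B ?_
    exact Finset.card_eq_three.2 ⟨a, b, c, fun h => hab (congrArg _ h),
      fun h => hac (congrArg _ h), fun h => hbc (congrArg _ h), rfl⟩

/-- The algorithm for 4-connected graphs. -/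
def alg4 (w : List Bool) : Bool := conn4B (side w) w && apexB (side w) w

/-- The algorithm for internally 4-connected graphs. -/
def algI (w : List Bool) : Bool := iconn4B (side w) w && apexB (side w) w

theorem alg4_iff {n : ℕ} (G : SimpleGraph (Fin n)) : alg4 (code G) = true ↔ Conn4 G ∧ Apex G := by
  unfold alg4
  rw [side_code, Bool.and_eq_true, conn4B_iff, apexB_iff]

theorem algI_iff {n : ℕ} (G : SimpleGraph (Fin n)) : algI (code G) = true ↔ IConn4 G ∧ Apex G := by
  unfold algI
  rw [side_code, Bool.and_eq_true, iconn4B_iff, apexB_iff]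

theorem alg4_poly : Nonempty (Turing.TM2ComputableInPolyTime (fun w : List Bool => w)
    Computability.encodeBool alg4) :=
  PT.tm2RawBool (PT.and (PT.conn4B (PT.side PT.id) PT.id) (PT.apexB (PT.side PT.id) PT.id))

theorem algI_poly : Nonempty (Turing.TM2ComputableInPolyTime (fun w : List Bool => w)
    Computability.encodeBool algI) :=
  PT.tm2RawBool (PT.and (PT.iconn4B (PT.side PT.id) PT.id) (PT.apexB (PT.side PT.id) PT.id))

end Pool.Agent.Lib.MPded8ec.ALG
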