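import Mathlib

/-!
# Seymour graphs (MP_ded8ec_lc): the input of the algorithm
-/

set_option autoImplicit false

namespace Pool.Agent.Lib.MPded8ec.ALG

open Classical in
/-- The adjacency matrix of the graph `G` on `Fin n`, row by row: a word of `n ^ 2` bits. -/
noncomputable def code {n : ℕ} (G : SimpleGraph (Fin n)) : List Bool :=
  (List.finRange n).flatMap fun i => (List.finRange n).map fun j => decide (G.Adj i j)

end Pool.Agent.Lib.MPded8ec.ALG
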