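import Pool.Agent.Lib.MP_ded8ec_lc.ALG.Corr

/-!
# The class of the (internally) 4-connected Seymour graphs is in P

The machine is `algI` (`alg4`), see `ALG/Prog.lean`; `algI_poly` is the polynomial bound, `algI_iff` the
correctness.
-/

set_option autoImplicit false

namespace Pool.Agent.Lib.MPded8ec.ALG

open Pool.Agent.Lib.MPded8ec.SG Pool.Agent.Lib.MPded8ec.FI

theorem machine4
    (h : ∀ (V : Type) [Fintype V] (G : SimpleGraph V) (_ : Conn4 G), IsSeymour G ↔ Apex G) :
    ∃ f : List Bool → Bool,
      Nonempty (Turing.TM2ComputableInPolyTime (fun w : List Bool => w) Computability.encodeBool f) ∧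
      ∀ (n : ℕ) (G : SimpleGraph (Fin n)), f (code G) = true ↔ Conn4 G ∧ IsSeymour G :=
  ⟨alg4, alg4_poly, fun n G =>
    (alg4_iff G).trans (and_congr_right fun h4 => (h (Fin n) G h4).symm)⟩

theorem machineI (h : FI.Main.{0}) :
    ∃ f : List Bool → Bool,
      Nonempty (Turing.TM2ComputableInPolyTime (fun w : List Bool => w) Computability.encodeBool f) ∧
      ∀ (n : ℕ) (G : SimpleGraph (Fin n)), f (code G) = true ↔ IConn4 G ∧ IsSeymour G :=
  ⟨algI, algI_poly, fun n G =>
    (algI_iff G).trans (and_congr_right fun h4 => (h (Fin n) G h4).symm)⟩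

end Pool.Agent.Lib.MPded8ec.ALG
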